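import Pool.Agent.Helper95.CF.Stmts
import Pool.Agent.Helper95.LN.Fin

set_option autoImplicit false

namespace Pool.Agent.Helper95.CF

open Pool.Agent.Helper95.PW Pool.Agent.Helper95.LN

theorem upto_of (hI : ST_INTM) (hE : ST_EB) (hT : ST_MTL) (hN : ST_EBN) (hL : ST_TLG) (z : ℝ)
    (hz : 0 < z) : ∃ d C : ℝ, 0 < d ∧ 0 < C ∧ ∀ (n M : ℕ)
    (X : Fin M → R3) (Z : Fin M → ℕ) (E : ℝ) (φ : Wf n) (G : Fin n → Fin 3 → Wf n), 1 ≤ M →
    MolGround n X Z E φ G → (∀ j, (Z j : ℝ) ≤ z) → (∀ i j, i ≠ j → d ≤ nr (X i - X j)) →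
    mom G ≤ C * kinG G := by
  obtain ⟨d0, c0, hd0, hc0, h0⟩ := hN z hz.le
  obtain ⟨d1, c, hd1, hc, h1⟩ := hL z c0 hz.le hc0
  have hm : 0 < 4 * max d0 d1 := by positivity
  obtain ⟨C, hC, h2⟩ := mol_lin_of hI hE hT z (4 * max d0 d1) hz hm
  refine ⟨4 * max d0 d1, C / c, hm, by positivity, ?_⟩
  intro n M X Z E φ G hM h hZ hX
  have hn : 1 ≤ n := by
    rw [← h.neutral]
    have h0 : Z ⟨0, hM⟩ ≤ ∑ j, Z j := Finset.single_le_sum (fun _ _ => Nat.zero_le _)
      (Finset.mem_univ _)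
    exact (h.charge _).trans h0
  have hS0 : Sep X d0 := by
    intro i j hij
    have := hX i j hij
    have := le_max_left d0 d1
    linarith
  have hS1 : Sep X d1 := by
    intro i j hij
    have := hX i j hij
    have := le_max_right d0 d1
    linarith
  have hG := mol_ground hI h
  have e1 := h0 n M X Z (E - nuc X Z) hS0 h.neutral hZ hG.low
  have e2 := h1 n M X (fun j => (Z j : ℝ)) (E - nuc X Z) φ G hn (mol_nuc h) hZ hS1 e1 hG
  have e3 := h2 n M X Z E φ G hM h hZ hX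
  calc mom G ≤ C * n := e3
    _ = C / c * (c * n) := by field_simp
    _ ≤ C / c * kinG G := by gcongr

end Pool.Agent.Helper95.CF
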