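import Pool.Agent.Helper95.LN.All
import Pool.Agent.Helper95.CF.Fin
import Pool.Agent.Helper11.CF.PT3
import Pool.Agent.Helper89.CF.EBN
import Pool.Agent.Helper97.CF.ES1X
import Pool.Agent.Helper21.CF.TLS
import Pool.Agent.Helper77.CF.TLG

set_option autoImplicit false

namespace Pool.Agent.Helper95.CF

open Pool.Agent.Helper95.PW Pool.Agent.Helper95.LN

/-- the lower bound of the kinetic energy -/
theorem allC : ST_INTM ∧ ST_EB ∧ ST_MTL ∧ ST_EBN ∧ ST_TLG := by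
  have IBP : ST_IBP := Pool.Agent.Helper2.PW.st_IBP
  have STB : ST_STB := Pool.Agent.Helper2.PW.st_STB
  have PAN : ST_PAN := Pool.Agent.Helper2.PW.st_PAN IBP
  have HA1 : ST_HA1 := st_HA1
  have HA2 : ST_HA2 := st_HA2
  have HA3 : ST_HA3 := st_HA3
  have INT : ST_INT := st_INT HA1 HA2
  have INTM : ST_INTM := st_INTM HA3 HA2
  have QHM : ST_QHM := st_QHM IBP INTM
  have CSQM : ST_CSQM := st_CSQM QHM INTM
  have HFM : ST_HFM := st_HFM
  have AIDM : ST_AIDM := st_AIDM QHM HFM PAN STB INTM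
  have CIDM : ST_CIDM := st_CIDM QHM HFM STB INTM
  have KINM : ST_KINM := st_KINM IBP PAN STB
  have POE : ST_POE := Pool.Agent.Helper14.PW.st_POE PAN STB INT HA2
  have ERR : ST_ERR := st_ERR
  have MORM : ST_MORM := st_MORM IBP HA3 INTM QHM
  have APXM : ST_APXM := st_APXM HA3 HA2 INTM
  have LMTM : ST_LMTM := st_LMTM
  have HLOC : ST_HLOC := st_HLOC HA3
  have PK : ST_PK := st_PK
  have MGB : ST_MGB := st_MGB st_CP st_INN2
  have MGS : ST_MGS := st_MGS MGB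
  have KID : ST_KID := st_KID IBP PAN STB
  have PGB : ST_PGB := st_PGB HLOC
  have PINS : ST_PINS := st_PINS PAN STB INTM
  have BINJ : ST_BINJ := st_BINJ QHM PAN STB KINM POE PINS INTM
  have INLJ : ST_INLJ := st_INLJ CSQM STB AIDM CIDM BINJ ERR INTM MORM
  have POTB : ST_POTB := st_POTB PK HLOC INTM
  have LIMG : ST_LIMG := st_LIMG st_CUT
  have E0 : ST_E0 := st_E0
  have CUT : ST_CUT := st_CUT
  have PHA : ST_PHA := Pool.Agent.Helper24.LN.PHA
  have PHB : ST_PHB := Pool.Agent.Helper49.LN.PHB PHA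
  have PHC : ST_PHC := Pool.Agent.Helper33.LN.PHC 
  have MVP : ST_MVP := Pool.Agent.Helper81.LN.MVP PHA PHB PHC
  have EID : ST_EID := Pool.Agent.Helper84.LN.EID PHA PHB PHC
  have KK : ST_KK := Pool.Agent.Helper2.LN.KK MVP PHA PHB PHC
  have GRD : ST_GRD := Pool.Agent.Helper59.LN.GRD PHA PHB PHC
  have DEX : ST_DEX := Pool.Agent.Helper27.LN.DEX EID KK PHA PHB PHC
  have ES1 : ST_ES1 := Pool.Agent.Helper97.LN.ES1 DEX KK PHA PHC
  have NB : ST_NB := Pool.Agent.Helper47.LN.NB GRD PHA PHB PHC DEX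
  have FF : ST_FF := Pool.Agent.Helper76.LN.FF MVP PHA PHB PHC NB DEX
  have VIR : ST_VIR := Pool.Agent.Helper53.LN.VIR ES1 NB FF KK
  have VID : ST_VID := Pool.Agent.Helper51.LN.VID IBP HA2 HA3 INT INTM
  have PK4 : ST_PK4 := Pool.Agent.Helper78.LN.PK4 
  have MGX : ST_MGX := Pool.Agent.Helper99.LN.MGX MGB PK4
  have AED : ST_AED := Pool.Agent.Helper55.LN.AED 
  have MLL : ST_MLL := Pool.Agent.Helper14.LN.MLL MGS MGX AED KID VID VIR PGB HLOC PAN STB INTM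
  have TRE : ST_TRE := Pool.Agent.Helper80.LN.TRE 
  have ORB : ST_ORB := Pool.Agent.Helper9.LN.ORB PHC
  have PT1 : ST_PT1 := Pool.Agent.Helper11.LN.PT1 MVP PHA PHB PHC
  have PT2 : ST_PT2 := Pool.Agent.Helper1.LN.PT2 PT1 PHC
  have EB : ST_EB := Pool.Agent.Helper89.LN.EB TRE ORB PT1 PT2
  have TBL : ST_TBL := Pool.Agent.Helper21.LN.TBL ES1 AED HLOC QHM INTM KK
  have MTL : ST_MTL := Pool.Agent.Helper39.LN.MTL MLL TBL INLJ E0 POTB LIMG CUT APXM LMTM QHM INTM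
  have PT3 : ST_PT3 := Pool.Agent.Helper11.CF.PT3 PT1 PHC
  have EBN : ST_EBN := Pool.Agent.Helper89.CF.EBN TRE ORB PT1 PT2 PT3
  have ES1X : ST_ES1X := Pool.Agent.Helper97.CF.ES1X DEX KK PHA PHC
  have TLS : ST_TLS := Pool.Agent.Helper21.CF.TLS ES1X KK AED HLOC QHM INTM
  have TLG : ST_TLG := Pool.Agent.Helper77.CF.TLG TLS APXM LMTM QHM INTM
  exact ⟨INTM, EB, MTL, EBN, TLG⟩

/-- all neutral molecules with bounded charges and well separated nuclei -/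
theorem upto (z : ℝ) (hz : 0 < z) : ∃ d C : ℝ, 0 < d ∧ 0 < C ∧ ∀ (n M : ℕ)
    (X : Fin M → R3) (Z : Fin M → ℕ) (E : ℝ) (φ : Wf n) (G : Fin n → Fin 3 → Wf n), 1 ≤ M →
    MolGround n X Z E φ G → (∀ j, (Z j : ℝ) ≤ z) → (∀ i j, i ≠ j → d ≤ nr (X i - X j)) →
    mom G ≤ C * kinG G := by
  obtain ⟨h1, h2, h3, h4, h5⟩ := allC
  exact upto_of h1 h2 h3 h4 h5 z hz

end Pool.Agent.Helper95.CF
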