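import Pool.Agent.Helper95.LN.Stmts

/-!
# Lower bound of the kinetic energy for well separated nuclei: statements of the rows
-/

set_option autoImplicit false

namespace Pool.Agent.Helper95.CF

open MeasureTheory Filter Pool.Agent.Helper95.PW Pool.Agent.Helper95.LN

/-- row PT3 (PT1, PHC): concentric shells, exact -/
def ST_PT3 : Prop := ∀ (a a' : ℝ) (X0 : R3), 0 < a → 0 < a' →
  kap / a ≤ ∫ x, et a (x - X0) / nr (x - X0) ∧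
  (a' ≤ a / 4 → ∫ x, ∫ y, et a (x - X0) * et a' (y - X0) / nr (x - y) =
      kap * ∫ x, et a (x - X0) / nr (x - X0) ∧
    ∫ x, ∫ y, et a' (x - X0) * et a (y - X0) / nr (x - y) =
      kap * ∫ x, et a (x - X0) / nr (x - X0))

/-- row EBN (TRE, ORB, PT1, PT2, PT3; as Helper89/LN/EB.lean): the trial atoms have negative
energy: `a_m = R / 4^m`, `R = 2 C 4^z`; `∑_m (C / a_m^2 - (m + 1) / a_m) ≤ -∑_m 1 / (2 a_m)` -/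
def ST_EBN : Prop := ∀ z : ℝ, 0 ≤ z → ∃ d c : ℝ, 0 < d ∧ 0 < c ∧ ∀ (n M : ℕ)
  (X : Fin M → R3) (Z : Fin M → ℕ) (E : ℝ), Sep X d → ∑ j, Z j = n → (∀ j, (Z j : ℝ) ≤ z) →
  LowM n X (fun j => (Z j : ℝ)) E → E + nucR X (fun j => (Z j : ℝ)) ≤ -(c * n)

/-- row ES1X (DEX, KK, PHA, PHC): `ES1` with the explicit constant (Helper97/LN/ES1.lean) -/
def ST_ES1X : Prop := ∀ z d : ℝ, 0 ≤ z → 0 < d → ∀ (n M : ℕ)
  (X : Fin M → R3) (Z : Fin M → ℝ) (x : Cf n), Sep X d → Nuc n Z → (∀ j, Z j ≤ z) → Dist X x →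
  1 / 2 * Dn (d / 8) X Z x + Rem (d / 8) x ≤
    Vc X Z x + 8 * (1 + z) / d * n + z * ∑ k, near1 X d (x k)

/-- row TLS (ES1X, KK, AED, HLOC, QHM, INTM; as Helper21/LN/TBL.lean) -/
def ST_TLS : Prop := ∀ z c0 : ℝ, 0 ≤ z → 0 < c0 → ∃ d c ε : ℝ, 0 < d ∧ 0 < c ∧ 0 < ε ∧
  ∀ (n M : ℕ) (X : Fin M → R3) (Z : Fin M → ℝ) (E : ℝ) (u : Wf n), 1 ≤ n → Nuc n Z →
  (∀ j, Z j ≤ z) → Sep X d → E + nucR X Z ≤ -(c0 * n) → Sm u → 1 / 2 ≤ PW.sq u → PW.sq u ≤ 2 →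
  resM X Z E u ≤ ε → c * n ≤ kin u

/-- row TLG (TLS, APXM, LMTM, QHM, INTM; limit as in Helper95/PN/TB.lean) -/
def ST_TLG : Prop := ∀ z c0 : ℝ, 0 ≤ z → 0 < c0 → ∃ d c : ℝ, 0 < d ∧ 0 < c ∧
  ∀ (n M : ℕ) (X : Fin M → R3) (Z : Fin M → ℝ) (E : ℝ) (φ : Wf n) (G : Fin n → Fin 3 → Wf n),
  1 ≤ n → Nuc n Z → (∀ j, Z j ≤ z) → Sep X d → E + nucR X Z ≤ -(c0 * n) →
  GroundM n X Z E φ G → c * n ≤ kinG G

end Pool.Agent.Helper95.CF
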